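import Mathlib
import Pool.Agent.H629.TA.Stm

/-!
# The Stein equation for Lipschitz functions (task TA-ST of helper629, by helper546)
-/

set_option autoImplicit false
set_option linter.all false

namespace Pool.Agent.H546.TA.ST

open MeasureTheory Set Filter Topology ProbabilityTheory

/-- the unnormalised Gaussian -/
noncomputable def ph (t : ℝ) : ℝ := Real.exp (-(t ^ 2) / 2)

/-- the weight -/
noncomputable def E (x s : ℝ) : ℝ := Real.exp (-(x * s) - s ^ 2 / 2)

theorem ph_pos (t : ℝ) : 0 < ph t := Real.exp_pos _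
theorem E_pos (x s : ℝ) : 0 < E x s := Real.exp_pos _

theorem ph_cont : Continuous ph := by unfold ph; fun_prop
theorem E_cont (x : ℝ) : Continuous (E x) := by unfold E; fun_prop

theorem int_ph : Integrable ph := by
  have h := integrable_exp_neg_mul_sq (b := 1 / 2) (by norm_num)
  refine h.congr (Eventually.of_forall fun t => ?_)
  unfold ph
  simp only
  congr 1
  ring

theorem int_tph : Integrable (fun t => t * ph t) := by
  have h := integrable_mul_exp_neg_mul_sq (b := 1 / 2) (by norm_num)
  refine h.congr (Eventually.of_forall fun t => ?_)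
  unfold ph
  simp only
  congr 2
  ring

theorem int_t2ph : Integrable (fun t => t ^ 2 * ph t) := by
  have h := integrable_rpow_mul_exp_neg_mul_sq (b := 1 / 2) (by norm_num) (s := 2) (by norm_num)
  refine h.congr (Eventually.of_forall fun t => ?_)
  unfold ph
  simp only
  rw [Real.rpow_two]
  congr 2
  ring

theorem E_le {x s : ℝ} (hx : 0 ≤ x) (hs : 0 ≤ s) : E x s ≤ ph s := by
  unfold E ph
  apply Real.exp_le_exp.2
  nlinarith [mul_nonneg hx hs]

/-- integrability on the half line -/
theorem intE {x : ℝ} (hx : 0 ≤ x) {u : ℝ → ℝ} (hu : Continuous u) {a b c : ℝ}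
    (hb : ∀ s, 0 ≤ s → |u s| ≤ a + b * s + c * s ^ 2) :
    IntegrableOn (fun s => u s * E x s) (Ioi 0) := by
  have h1 : Integrable (fun s => a * ph s + b * (s * ph s) + c * (s ^ 2 * ph s)) :=
    ((int_ph.const_mul a).add (int_tph.const_mul b)).add (int_t2ph.const_mul c)
  refine Integrable.mono' (h1.integrableOn (s := Ioi 0)) ?_ ?_
  · exact (hu.mul (E_cont x)).aestronglyMeasurable.restrict
  · rw [ae_restrict_iff' measurableSet_Ioi]
    refine Eventually.of_forall fun s hs => ?_
    have hs0 : 0 ≤ s := le_of_lt hs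
    rw [Real.norm_eq_abs, abs_mul, abs_of_pos (E_pos x s)]
    have h2 := hb s hs0
    calc |u s| * E x s ≤ |u s| * ph s := mul_le_mul_of_nonneg_left (E_le hx hs0) (abs_nonneg _)
      _ ≤ (a + b * s + c * s ^ 2) * ph s := mul_le_mul_of_nonneg_right h2 (ph_pos s).le
      _ = _ := by ring

/-- the moments -/
noncomputable def R (j : ℕ) (x : ℝ) : ℝ := ∫ s in Ioi 0, s ^ j * E x s

theorem intR0 {x : ℝ} (hx : 0 ≤ x) : IntegrableOn (fun s => s ^ 0 * E x s) (Ioi 0) :=
  intE hx (u := fun s => s ^ 0) (by fun_prop) (a := 1) (b := 0) (c := 0) (by intro s hs; simp)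

theorem intR1 {x : ℝ} (hx : 0 ≤ x) : IntegrableOn (fun s => s ^ 1 * E x s) (Ioi 0) :=
  intE hx (u := fun s => s ^ 1) (by fun_prop) (a := 0) (b := 1) (c := 0)
    (by intro s hs; rw [pow_one, abs_of_nonneg hs]; linarith)

theorem intR2 {x : ℝ} (hx : 0 ≤ x) : IntegrableOn (fun s => s ^ 2 * E x s) (Ioi 0) :=
  intE hx (u := fun s => s ^ 2) (by fun_prop) (a := 0) (b := 0) (c := 1)
    (by intro s hs; rw [abs_of_nonneg (by positivity)]; linarith)

theorem R_nonneg (j : ℕ) (x : ℝ) : 0 ≤ R j x := by
  unfold R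
  apply setIntegral_nonneg measurableSet_Ioi
  intro s hs
  have hs' : (0 : ℝ) < s := hs
  exact mul_nonneg (pow_nonneg hs'.le j) (E_pos x s).le

theorem hasDeriv_E (x s : ℝ) : HasDerivAt (fun s => E x s) (-(x + s) * E x s) s := by
  unfold E
  have h1 : HasDerivAt (fun s : ℝ => -(x * s) - s ^ 2 / 2) (-(x + s)) s := by
    have h2 := ((hasDerivAt_id s).const_mul x).neg.sub (((hasDerivAt_id s).pow 2).div_const 2)
    refine h2.congr_deriv ?_
    simp
    ring
  have h2 := h1.exp
  refine h2.congr_deriv ?_
  ring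

theorem tends_ph : Tendsto ph atTop (𝓝 0) := by
  unfold ph
  apply Real.tendsto_exp_atBot.comp
  have h : Tendsto (fun t : ℝ => t ^ 2) atTop atTop := tendsto_pow_atTop (by norm_num)
  have h2 := (h.atTop_div_const (by norm_num : (0 : ℝ) < 2))
  have h3 := tendsto_neg_atTop_atBot.comp h2
  refine h3.congr fun t => ?_
  simp only [Function.comp]
  ring

theorem tends_tph : Tendsto (fun t => t * ph t) atTop (𝓝 0) := by
  have h := tendsto_rpow_abs_mul_exp_neg_mul_sq_cocompact (a := 1 / 2) (by norm_num) 1
  have h2 : Tendsto (fun t : ℝ => |t| ^ (1 : ℝ) * Real.exp (-(1 / 2) * t ^ 2)) atTop (𝓝 0) :=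
    h.mono_left atTop_le_cocompact
  refine h2.congr' ?_
  filter_upwards [eventually_ge_atTop (0 : ℝ)] with t ht
  rw [Real.rpow_one, abs_of_nonneg ht]
  unfold ph
  congr 2
  ring

theorem tends_E {x : ℝ} (hx : 0 ≤ x) : Tendsto (fun s => E x s) atTop (𝓝 0) := by
  refine squeeze_zero' (Eventually.of_forall fun s => (E_pos x s).le) ?_ tends_ph
  filter_upwards [eventually_ge_atTop (0 : ℝ)] with s hs
  exact E_le hx hs

theorem tends_sE {x : ℝ} (hx : 0 ≤ x) : Tendsto (fun s => s * E x s) atTop (𝓝 0) := by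
  refine squeeze_zero' ?_ ?_ tends_tph
  · filter_upwards [eventually_ge_atTop (0 : ℝ)] with s hs
    exact mul_nonneg hs (E_pos x s).le
  · filter_upwards [eventually_ge_atTop (0 : ℝ)] with s hs
    exact mul_le_mul_of_nonneg_left (E_le hx hs) hs

/-- first identity -/
theorem id1 {x : ℝ} (hx : 0 ≤ x) : x * R 0 x + R 1 x = 1 := by
  have h1 : IntegrableOn (fun s => -(x + s) * E x s) (Ioi 0) := by
    have h2 := ((intR0 hx).const_mul (-x)).add ((intR1 hx).neg)
    refine h2.congr (Eventually.of_forall fun s => ?_)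
    simp
    ring
  have h2 := integral_Ioi_of_hasDerivAt_of_tendsto' (f := fun s => E x s)
    (fun s _ => hasDeriv_E x s) h1 (tends_E hx)
  have h3 : ∫ s in Ioi 0, -(x + s) * E x s = -x * R 0 x - R 1 x := by
    unfold R
    rw [← integral_const_mul, ← integral_sub ((intR0 hx).const_mul (-x)) (intR1 hx)]
    refine integral_congr_ae (Eventually.of_forall fun s => ?_)
    simp
    ring
  rw [h3] at h2
  have h4 : E x 0 = 1 := by unfold E; simp
  simp only [h4] at h2
  linarith

/-- second identity -/
theorem id2 {x : ℝ} (hx : 0 ≤ x) : R 0 x = x * R 1 x + R 2 x := by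
  have hd : ∀ s : ℝ, HasDerivAt (fun s => s * E x s) (E x s + s * (-(x + s) * E x s)) s := by
    intro s
    have h := (hasDerivAt_id s).mul (hasDeriv_E x s)
    refine h.congr_deriv ?_
    simp
  have h1 : IntegrableOn (fun s => E x s + s * (-(x + s) * E x s)) (Ioi 0) := by
    have h2 := ((intR0 hx).add ((intR1 hx).const_mul (-x))).sub (intR2 hx)
    refine h2.congr (Eventually.of_forall fun s => ?_)
    simp
    ring
  have h2 := integral_Ioi_of_hasDerivAt_of_tendsto' (f := fun s => s * E x s)
    (fun s _ => hd s) h1 (tends_sE hx)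
  have h3 : ∫ s in Ioi 0, (E x s + s * (-(x + s) * E x s)) = R 0 x + -x * R 1 x - R 2 x := by
    unfold R
    have h5 : IntegrableOn (fun s => s ^ 0 * E x s + -x * (s ^ 1 * E x s)) (Ioi 0) :=
      (intR0 hx).add ((intR1 hx).const_mul (-x))
    rw [← integral_const_mul, ← integral_add (intR0 hx) ((intR1 hx).const_mul (-x)),
      ← integral_sub h5 (intR2 hx)]
    refine integral_congr_ae (Eventually.of_forall fun s => ?_)
    simp
    ring
  rw [h3] at h2
  simp only [zero_mul, sub_zero] at h2
  linarith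

theorem R0_le {x : ℝ} (hx : 0 ≤ x) : R 0 x ≤ 2 := by
  have h1 : R 0 x ≤ ∫ s in Ioi (0 : ℝ), Real.exp (-(1 / 2) * s ^ 2) := by
    unfold R
    refine setIntegral_mono_on (intR0 hx)
      ((integrable_exp_neg_mul_sq (b := 1 / 2) (by norm_num)).integrableOn) measurableSet_Ioi ?_
    intro s hs
    have hs' : (0 : ℝ) < s := hs
    rw [pow_zero, one_mul]
    unfold E
    apply Real.exp_le_exp.2
    nlinarith [mul_nonneg hx hs'.le]
  rw [integral_gaussian_Ioi] at h1
  have h2 : Real.sqrt (Real.pi / (1 / 2)) ≤ 4 := by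
    rw [Real.sqrt_le_left (by norm_num)]
    have := Real.pi_lt_four
    norm_num
    linarith
  linarith

/-- the bounds for one half line -/
theorem bounds {g : ℝ → ℝ} (hg : ∀ x y, |g x - g y| ≤ |x - y|) {c : ℝ} (hc : |g 0| ≤ c) {x A : ℝ}
    (hx : 0 ≤ x) (hA : A = -∫ s in Ioi 0, g (x + s) * E x s) :
    |A| ≤ 2 * c + 1 ∧ |x * A + g x| ≤ 3 * c + 6 ∧ |x * (x * A + g x)| ≤ 3 * c + 6 := by
  have hcont : Continuous g := by
    have : LipschitzWith 1 g := LipschitzWith.of_dist_le_mul (by
      intro a b
      rw [Real.dist_eq, Real.dist_eq]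
      simpa using hg a b)
    exact this.continuous
  have hc0 : 0 ≤ c := (abs_nonneg _).trans hc
  have hgx : |g x| ≤ c + x := by
    have h1 := hg x 0
    have h2 : |g x| ≤ |g x - g 0| + |g 0| := by
      have := abs_add_le (g x - g 0) (g 0)
      simpa using this
    rw [sub_zero, abs_of_nonneg hx] at h1
    linarith
  obtain ⟨D, hD⟩ : ∃ D : ℝ, D = ∫ s in Ioi 0, (g (x + s) - g x) * E x s := ⟨_, rfl⟩
  have hi1 : IntegrableOn (fun s => (g (x + s) - g x) * E x s) (Ioi 0) := by
    refine intE hx (u := fun s => g (x + s) - g x) (by fun_prop) (a := 0) (b := 1) (c := 0) ?_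
    intro s hs
    have := hg (x + s) x
    rw [add_sub_cancel_left, abs_of_nonneg hs] at this
    linarith
  have hA2 : A = -(g x * R 0 x + D) := by
    rw [hA, hD]
    unfold R
    rw [← integral_const_mul, ← integral_add ((intR0 hx).const_mul _) hi1]
    congr 1
    refine integral_congr_ae (Eventually.of_forall fun s => ?_)
    simp
    ring
  have hDle : |D| ≤ R 1 x := by
    rw [hD]
    refine (abs_integral_le_integral_abs).trans ?_
    unfold R
    refine setIntegral_mono_on hi1.abs (intR1 hx) measurableSet_Ioi ?_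
    intro s hs
    have hs' : (0 : ℝ) < s := hs
    rw [abs_mul, abs_of_pos (E_pos x s), pow_one]
    refine mul_le_mul_of_nonneg_right ?_ (E_pos x s).le
    have := hg (x + s) x
    rw [add_sub_cancel_left, abs_of_pos hs'] at this
    exact this
  have h1 := id1 hx
  have h2 := id2 hx
  have h3 := R0_le hx
  have r0 := R_nonneg 0 x
  have r1 := R_nonneg 1 x
  have r2 := R_nonneg 2 x
  have hf' : x * A + g x = g x * R 1 x - x * D := by
    rw [hA2]
    have : R 1 x = 1 - x * R 0 x := by linarith
    rw [this]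
    ring
  have hxR1 : x * R 1 x ≤ R 0 x := by linarith
  have hxxR1 : x * (x * R 1 x) ≤ 1 := by
    have := mul_le_mul_of_nonneg_left hxR1 hx
    nlinarith
  have hb : |x * A + g x| ≤ (c + x) * R 1 x + x * R 1 x := by
    rw [hf']
    refine (abs_sub _ _).trans ?_
    rw [abs_mul, abs_mul, abs_of_nonneg r1, abs_of_nonneg hx]
    have e1 := mul_le_mul_of_nonneg_right hgx r1
    have e2 := mul_le_mul_of_nonneg_left hDle hx
    linarith
  refine ⟨?_, ?_, ?_⟩
  · rw [hA2, abs_neg]
    refine (abs_add_le _ _).trans ?_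
    rw [abs_mul, abs_of_nonneg r0]
    have e1 := mul_le_mul_of_nonneg_right hgx r0
    have e2 := mul_le_mul_of_nonneg_left h3 hc0
    nlinarith
  · refine hb.trans ?_
    have e1 : c * R 1 x ≤ c * 1 := mul_le_mul_of_nonneg_left (by nlinarith) hc0
    nlinarith
  · rw [abs_mul, abs_of_nonneg hx]
    refine (mul_le_mul_of_nonneg_left hb hx).trans ?_
    have e1 : c * (x * R 1 x) ≤ c * 2 := mul_le_mul_of_nonneg_left (by linarith) hc0
    nlinarith

theorem ph_add (x s : ℝ) : Real.exp (x ^ 2 / 2) * ph (x + s) = E x s := by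
  unfold ph E
  rw [← Real.exp_add]
  congr 1
  ring

/-- substitution -/
theorem subst (g : ℝ → ℝ) (x : ℝ) :
    Real.exp (x ^ 2 / 2) * ∫ t in Ioi x, g t * ph t = ∫ s in Ioi 0, g (x + s) * E x s := by
  have h1 : ∫ t in Ioi x, g t * ph t = ∫ s in Ioi (0 : ℝ), g (x + s) * ph (x + s) := by
    have h2 := (measurePreserving_add_left volume x).setIntegral_preimage_emb
      (measurableEmbedding_addLeft x) (fun t => g t * ph t) (Ioi x)
    rw [← h2]
    congr 2
    rw [Set.preimage_const_add_Ioi, sub_self]
  rw [h1, ← integral_const_mul]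
  refine integral_congr_ae (Eventually.of_forall fun s => ?_)
  simp only
  rw [← ph_add x s]
  ring

theorem t_ST : Pool.Agent.H629.TA.S_ST := by
  obtain ⟨c, hc⟩ : ∃ c : ℝ, c = ∫ y, |y| ∂(gaussianReal 0 1) := ⟨_, rfl⟩
  have hc0 : 0 ≤ c := by rw [hc]; exact integral_nonneg fun y => abs_nonneg y
  refine ⟨5 * c + 8, by linarith, ?_⟩
  intro h hh
  have hcont : Continuous h := by
    have : LipschitzWith 1 h := LipschitzWith.of_dist_le_mul (by
      intro a b
      rw [Real.dist_eq, Real.dist_eq]
      simpa using hh a b)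
    exact this.continuous
  obtain ⟨N, hN⟩ : ∃ N : ℝ, N = ∫ y, h y ∂(gaussianReal 0 1) := ⟨_, rfl⟩
  rw [← hN]
  obtain ⟨g, hg⟩ : ∃ g : ℝ → ℝ, g = fun t => h t - N := ⟨_, rfl⟩
  have hgl : ∀ x y, |g x - g y| ≤ |x - y| := by
    intro x y
    rw [hg]
    simpa using hh x y
  have hgc : Continuous g := by rw [hg]; fun_prop
  have hy1 : Integrable (fun y : ℝ => |y|) (gaussianReal 0 1) := by
    have h1 : MemLp (id : ℝ → ℝ) 1 (gaussianReal 0 1) := memLp_id_gaussianReal 1
    exact (memLp_one_iff_integrable.1 h1).abs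
  have hh1 : Integrable h (gaussianReal 0 1) := by
    have h1 : Integrable (fun y : ℝ => |h 0| + |y|) (gaussianReal 0 1) :=
      (integrable_const _).add hy1
    refine h1.mono' hcont.aestronglyMeasurable (Eventually.of_forall fun y => ?_)
    rw [Real.norm_eq_abs]
    have h2 := hh y 0
    rw [sub_zero] at h2
    have h3 : |h y| ≤ |h y - h 0| + |h 0| := by
      have := abs_add_le (h y - h 0) (h 0)
      simpa using this
    linarith
  have hg0 : |g 0| ≤ c := by
    have h1 : g 0 = ∫ y, (h 0 - h y) ∂(gaussianReal 0 1) := by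
      rw [integral_sub (integrable_const _) hh1, hg, hN]
      simp
    rw [h1, hc]
    refine (abs_integral_le_integral_abs).trans ?_
    refine integral_mono ((integrable_const _).sub hh1).abs hy1 fun y => ?_
    have := hh 0 y
    simpa using this
  -- integrability of g ph
  have hgi : Integrable (fun t => g t * ph t) := by
    have h1 : Integrable (fun t => c * ph t + |t * ph t|) := (int_ph.const_mul c).add int_tph.abs
    refine h1.mono' (hgc.mul ph_cont).aestronglyMeasurable (Eventually.of_forall fun t => ?_)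
    rw [Real.norm_eq_abs, abs_mul, abs_mul, abs_of_pos (ph_pos t)]
    have h2 := hgl t 0
    rw [sub_zero] at h2
    have h3 : |g t| ≤ |g t - g 0| + |g 0| := by
      have := abs_add_le (g t - g 0) (g 0)
      simpa using this
    have h4 : |g t| ≤ c + |t| := by linarith
    have := mul_le_mul_of_nonneg_right h4 (ph_pos t).le
    linarith
  -- mean zero
  have hmean : ∫ t, g t * ph t = 0 := by
    have h1 : ∫ y, g y ∂(gaussianReal 0 1) = 0 := by
      have : ∫ y, g y ∂(gaussianReal 0 1) = ∫ y, (h y - N) ∂(gaussianReal 0 1) := by rw [hg]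
      rw [this, integral_sub hh1 (integrable_const _), ← hN]
      simp
    rw [integral_gaussianReal_eq_integral_smul (by norm_num)] at h1
    have h2 : ∀ t : ℝ, gaussianPDFReal 0 1 t • g t = (Real.sqrt (2 * Real.pi))⁻¹ * (g t * ph t) := by
      intro t
      unfold gaussianPDFReal ph
      simp
      ring
    simp_rw [h2] at h1
    rw [integral_const_mul] at h1
    rcases mul_eq_zero.1 h1 with h3 | h3
    · exfalso
      have : 0 < (Real.sqrt (2 * Real.pi))⁻¹ := by
        have := Real.pi_pos
        positivity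
      linarith
    · exact h3
  obtain ⟨F, hF⟩ : ∃ F : ℝ → ℝ, F = fun x => -∫ t in Ioi x, g t * ph t := ⟨_, rfl⟩
  have hFd : ∀ x, HasDerivAt F (g x * ph x) x := by
    intro x
    have h1 : ∀ y, F y = (∫ t in (0 : ℝ)..y, g t * ph t) - ∫ t in Ioi (0 : ℝ), g t * ph t := by
      intro y
      have h2 := intervalIntegral.integral_interval_add_Ioi (f := fun t => g t * ph t)
        (μ := volume) (a := 0) (b := y) hgi.integrableOn hgi.integrableOn
      rw [hF]
      simp only
      linarith
    have h3 : HasDerivAt (fun y => ∫ t in (0 : ℝ)..y, g t * ph t) (g x * ph x) x :=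
      ((hgc.mul ph_cont).integral_hasStrictDerivAt 0 x).hasDerivAt
    have h4 := h3.sub_const (∫ t in Ioi (0 : ℝ), g t * ph t)
    have h5 : F = fun y => (∫ t in (0 : ℝ)..y, g t * ph t) - ∫ t in Ioi (0 : ℝ), g t * ph t :=
      funext h1
    rw [h5]
    exact h4
  obtain ⟨f, hf⟩ : ∃ f : ℝ → ℝ, f = fun x => Real.exp (x ^ 2 / 2) * F x := ⟨_, rfl⟩
  have hfd : ∀ x, HasDerivAt f (x * f x + g x) x := by
    intro x
    have h1 : HasDerivAt (fun x : ℝ => Real.exp (x ^ 2 / 2)) (Real.exp (x ^ 2 / 2) * x) x := by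
      have h2 : HasDerivAt (fun x : ℝ => x ^ 2 / 2) x x := by
        have h3 := ((hasDerivAt_id x).pow 2).div_const 2
        refine h3.congr_deriv ?_
        simp
      exact h2.exp
    have h2 := h1.mul (hFd x)
    rw [hf]
    refine h2.congr_deriv ?_
    have h3 : Real.exp (x ^ 2 / 2) * ph x = 1 := by
      unfold ph
      rw [← Real.exp_add]
      have : x ^ 2 / 2 + -x ^ 2 / 2 = 0 := by ring
      rw [this, Real.exp_zero]
    simp only
    linear_combination g x * h3
  -- bounds on both sides
  have hB : ∀ x, |f x| ≤ 2 * c + 1 ∧ |x * f x + g x| ≤ 3 * c + 6 ∧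
      |x * (x * f x + g x)| ≤ 3 * c + 6 := by
    intro x
    rcases le_total 0 x with hx | hx
    · apply bounds hgl hg0 hx
      rw [hf, hF]
      simp only
      rw [mul_neg, subst]
    · obtain ⟨k, hk⟩ : ∃ k : ℝ → ℝ, k = fun t => g (-t) := ⟨_, rfl⟩
      have hkl : ∀ x y, |k x - k y| ≤ |x - y| := by
        intro a b
        rw [hk]
        have := hgl (-a) (-b)
        have e1 : |(-a) - (-b)| = |a - b| := by
          rw [show (-a) - (-b) = -(a - b) by ring, abs_neg]
        rw [e1] at this
        exact this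
      have hk0 : |k 0| ≤ c := by rw [hk]; simpa using hg0
      have hFx : F x = ∫ t in Ioi (-x), k t * ph t := by
        have h1 : ∫ t in Ioi (-x), k t * ph t = ∫ t in Iic x, g t * ph t := by
          have h2 := integral_comp_neg_Ioi (-x) (fun t => g t * ph t)
          rw [neg_neg] at h2
          rw [← h2, hk]
          refine integral_congr_ae (Eventually.of_forall fun t => ?_)
          unfold ph
          simp
        have h2 := integral_add_compl (measurableSet_Iic (a := x)) hgi
        rw [compl_Iic, hmean] at h2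
        rw [h1, hF]
        simp only
        linarith
      have h1 := bounds (g := k) hkl hk0 (x := -x) (A := -f x) (by linarith) (by
        rw [← subst, hf]
        simp only
        rw [hFx]
        congr 2
        rw [neg_sq])
      have hkx : k (-x) = g x := by rw [hk]; simp
      rw [hkx, abs_neg] at h1
      have e1 : -x * -f x + g x = x * f x + g x := by ring
      rw [e1] at h1
      refine ⟨h1.1, h1.2.1, ?_⟩
      have e2 : |(-x) * (x * f x + g x)| = |x * (x * f x + g x)| := by
        rw [neg_mul, abs_neg]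
      rw [← e2]
      exact h1.2.2
  refine ⟨f, fun x => x * f x + g x, hfd, ?_, ?_, ?_, ?_⟩
  · intro x
    rw [hg]
    simp only
    ring
  · intro x
    have := (hB x).1
    linarith
  · intro x
    have := (hB x).2.1
    linarith
  · intro x y
    have hk : ∀ z, HasDerivAt (fun z => z * f z) (f z + z * (z * f z + g z)) z := by
      intro z
      have h1 := (hasDerivAt_id z).mul (hfd z)
      refine h1.congr_deriv ?_
      simp
    have h1 := convex_univ.norm_image_sub_le_of_norm_hasDerivWithin_le (𝕜 := ℝ)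
      (f := fun z => z * f z) (f' := fun z => f z + z * (z * f z + g z)) (C := 5 * c + 7)
      (fun z _ => (hk z).hasDerivWithinAt) (fun z _ => by
        rw [Real.norm_eq_abs]
        refine (abs_add_le _ _).trans ?_
        have h2 := (hB z).1
        have h3 := (hB z).2.2
        linarith) (mem_univ y) (mem_univ x)
    rw [Real.norm_eq_abs, Real.norm_eq_abs] at h1
    have h2 := hgl x y
    have e1 : (x * f x + g x) - (y * f y + g y) = (x * f x - y * f y) + (g x - g y) := by ring
    show |(x * f x + g x) - (y * f y + g y)| ≤ _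
    rw [e1]
    refine (abs_add_le _ _).trans ?_
    linarith

end Pool.Agent.H546.TA.ST
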